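import Mathlib

namespace Pool.Agent.Results.MP_91ff8f_lc.PolyDual

open Finset

/-- `f(x) = ‖A x‖₂ + bᵀ x`. -/
noncomputable def socF {n d : ℕ} (A : Matrix (Fin d) (Fin n) ℝ) (b : Fin n → ℝ)
    (x : Fin n → ℕ) : ℝ :=
  Real.sqrt (∑ k, (∑ i, A k i * (x i : ℝ)) ^ 2) + ∑ i, b i * (x i : ℝ)

/-- Maximal feasible vectors of `f(x) ≤ t` in the box `0 ≤ x ≤ c`. -/
def MaxFeas {n d : ℕ} (c : Fin n → ℕ) (A : Matrix (Fin d) (Fin n) ℝ) (b : Fin n → ℝ) (t : ℝ) :
    Set (Fin n → ℕ) :=
  {y | Maximal (fun x => x ≤ c ∧ socF A b x ≤ t) y}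

/-- Minimal elements of the box `0 ≤ x ≤ c` not dominated by any member of `𝒜`. -/
def MinND {n : ℕ} (c : Fin n → ℕ) (𝒜 : Set (Fin n → ℕ)) : Set (Fin n → ℕ) :=
  {x | Minimal (fun z => z ≤ c ∧ ∀ a ∈ 𝒜, ¬ z ≤ a) x}

lemma wcount {ι κ U : Type*} [DecidableEq U] (X : Finset ι) (T : ι → Finset U) (Y : Finset κ)
    (S : κ → Finset U) (w : U → ℝ) (hw : ∀ e, 0 ≤ w e) (α : ℝ)
    (hX : ∀ x ∈ X, α < ∑ e ∈ T x, w e) (hY : ∀ y ∈ Y, ∑ e ∈ S y, w e ≤ α) (M : ℕ)
    (hM : ∀ Z : Finset U, (∀ y ∈ Y, ¬ Z ⊆ S y) → (X.filter (fun x => Z ⊆ T x)).card ≤ M) :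
    ∀ (k : ℕ) (W Z : Finset U), (W \ Z).card = k → (∃ y ∈ Y, Z ⊆ S y) →
      (X.filter (fun x => Z ⊆ T x ∧ T x ⊆ W)).card ≤
        M * ∑ y ∈ Y.filter (fun y => Z ⊆ S y), (W \ S y).card := by
  classical
  intro k
  induction k using Nat.strong_induction_on with
  | _ k ih =>
  intro W Z hk hcov
  by_cases h1 : ∃ e ∈ W \ Z, ∀ y ∈ Y, ¬ insert e Z ⊆ S y
  · obtain ⟨e, he, hne⟩ := h1
    have heW : e ∈ W := (mem_sdiff.1 he).1
    have heZ : e ∉ Z := (mem_sdiff.1 he).2
    have hlt : (W.erase e \ Z).card < k := by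
      rw [← hk]
      apply card_lt_card
      refine ⟨fun a ha => ?_, fun h => ?_⟩
      · simp only [mem_sdiff, mem_erase] at ha ⊢; exact ⟨ha.1.2, ha.2⟩
      · have := h he; simp at this
    have i1 := ih _ hlt (W.erase e) Z rfl hcov
    have i2 := hM _ hne
    have i3 : (X.filter (fun x => Z ⊆ T x ∧ T x ⊆ W)) ⊆
        (X.filter (fun x => Z ⊆ T x ∧ T x ⊆ W.erase e)) ∪ (X.filter (fun x => insert e Z ⊆ T x)) := by
      intro x hx
      simp only [mem_filter, mem_union] at hx ⊢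
      by_cases hex : e ∈ T x
      · exact Or.inr ⟨hx.1, insert_subset hex hx.2.1⟩
      · refine Or.inl ⟨hx.1, hx.2.1, fun a ha => mem_erase.2 ⟨?_, hx.2.2 ha⟩⟩
        rintro rfl; exact hex ha
    have i4 : ∑ y ∈ Y.filter (fun y => Z ⊆ S y), (W.erase e \ S y).card + 1 ≤
        ∑ y ∈ Y.filter (fun y => Z ⊆ S y), (W \ S y).card := by
      apply Nat.succ_le_of_lt
      apply sum_lt_sum
      · intro y _
        exact card_le_card (sdiff_subset_sdiff (erase_subset _ _) subset_rfl)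
      · obtain ⟨y, hy, hyZ⟩ := hcov
        refine ⟨y, mem_filter.2 ⟨hy, hyZ⟩, card_lt_card ⟨sdiff_subset_sdiff (erase_subset _ _) subset_rfl, fun h => ?_⟩⟩
        have : e ∈ W \ S y := mem_sdiff.2 ⟨heW, fun h' => hne y hy (insert_subset h' hyZ)⟩
        have := h this
        simp at this
    calc _ ≤ _ := card_le_card i3
      _ ≤ _ := card_union_le _ _
      _ ≤ M * ∑ y ∈ Y.filter (fun y => Z ⊆ S y), (W.erase e \ S y).card + M := add_le_add i1 i2
      _ = M * (∑ y ∈ Y.filter (fun y => Z ⊆ S y), (W.erase e \ S y).card + 1) := by ring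
      _ ≤ _ := Nat.mul_le_mul_left _ i4
  · push Not at h1
    set X' := X.filter (fun x => Z ⊆ T x ∧ T x ⊆ W) with hX'
    set Y' := Y.filter (fun y => Z ⊆ S y) with hY'
    set γ := α - ∑ e ∈ Z, w e with hγ
    have hγ0 : 0 ≤ γ := by
      obtain ⟨y, hy, hyZ⟩ := hcov
      have := sum_le_sum_of_subset_of_nonneg hyZ (fun e _ _ => hw e)
      linarith [hY y hy]
    by_contra hcon
    push Not at hcon
    have hne : X'.Nonempty := card_pos.1 (by omega)
    have a1 : ∀ x ∈ X', γ < ∑ e ∈ W \ Z, if e ∈ T x then w e else 0 := by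
      intro x hx
      obtain ⟨hx, hZ, hW⟩ := mem_filter.1 hx
      have := hX x hx
      rw [← sum_filter]
      have e1 : (W \ Z).filter (fun e => e ∈ T x) = T x \ Z := by
        ext a; simp only [mem_filter, mem_sdiff]
        exact ⟨fun h => ⟨h.2, h.1.2⟩, fun h => ⟨⟨hW h.1, h.2⟩, h.1⟩⟩
      rw [e1]
      have := sum_sdiff (f := w) hZ
      linarith
    have a2 : ∀ y ∈ Y', ∑ e ∈ W \ Z, (if e ∈ S y then w e else 0) ≤ γ := by
      intro y hy
      obtain ⟨hy, hZ⟩ := mem_filter.1 hy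
      have := hY y hy
      rw [← sum_filter]
      have e1 : (W \ Z).filter (fun e => e ∈ S y) ⊆ S y \ Z := by
        intro a; simp only [mem_filter, mem_sdiff]
        exact fun h => ⟨h.2, h.1.2⟩
      have := sum_le_sum_of_subset_of_nonneg e1 (fun e _ _ => hw e)
      have := sum_sdiff (f := w) hZ
      linarith
    have a3 : ∀ e ∈ W \ Z, ∑ x ∈ X', (if e ∈ T x then w e else 0) ≤
        ∑ y ∈ Y', (M * (W \ S y).card : ℝ) * (if e ∈ S y then w e else 0) := by
      intro e he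
      have hlt : (W \ insert e Z).card < k := by
        rw [← hk]
        apply card_lt_card
        refine ⟨sdiff_subset_sdiff subset_rfl (subset_insert _ _), fun h => ?_⟩
        have := h he; simp at this
      have i1 := ih _ hlt W (insert e Z) rfl (h1 e he)
      have e1 : X.filter (fun x => insert e Z ⊆ T x ∧ T x ⊆ W) = X'.filter (fun x => e ∈ T x) := by
        ext x; simp only [hX', mem_filter, insert_subset_iff]; tauto
      have e2 : Y.filter (fun y => insert e Z ⊆ S y) = Y'.filter (fun y => e ∈ S y) := by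
        ext y; simp only [hY', mem_filter, insert_subset_iff]; tauto
      rw [e1, e2] at i1
      rw [← sum_filter, sum_const, nsmul_eq_mul]
      have e3 : ∑ y ∈ Y', (M * (W \ S y).card : ℝ) * (if e ∈ S y then w e else 0) =
          (M * ∑ y ∈ Y'.filter (fun y => e ∈ S y), (W \ S y).card : ℕ) * w e := by
        push_cast
        rw [sum_filter (s := Y'), mul_sum, sum_mul]
        refine sum_congr rfl fun y _ => ?_
        split_ifs <;> simp
      rw [e3]
      exact mul_le_mul_of_nonneg_right (by exact_mod_cast i1) (hw e)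
    have b1 : (X'.card : ℝ) * γ < ∑ x ∈ X', ∑ e ∈ W \ Z, if e ∈ T x then w e else 0 := by
      rw [← nsmul_eq_mul, ← sum_const]
      exact sum_lt_sum_of_nonempty hne a1
    have b2 : ∑ x ∈ X', ∑ e ∈ W \ Z, (if e ∈ T x then w e else 0) ≤
        ((M * ∑ y ∈ Y', (W \ S y).card : ℕ) : ℝ) * γ := by
      rw [sum_comm]
      refine (sum_le_sum a3).trans ?_
      rw [sum_comm]
      push_cast
      rw [mul_sum, sum_mul]
      refine sum_le_sum fun y hy => ?_
      rw [← mul_sum]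
      exact mul_le_mul_of_nonneg_left (a2 y hy) (by positivity)
    have b3 : ((M * ∑ y ∈ Y', (W \ S y).card : ℕ) : ℝ) ≤ X'.card := by exact_mod_cast hcon.le
    nlinarith [mul_le_mul_of_nonneg_right b3 hγ0]

lemma wcount' {ι κ U : Type*} [DecidableEq U] (X : Finset ι) (T : ι → Finset U) (Y : Finset κ)
    (S : κ → Finset U) (w : U → ℝ) (hw : ∀ e, 0 ≤ w e)
    (hXY : ∀ x ∈ X, ∀ y ∈ Y, ∑ e ∈ S y, w e < ∑ e ∈ T x, w e) (M : ℕ)
    (hM : ∀ Z : Finset U, (∀ y ∈ Y, ¬ Z ⊆ S y) → (X.filter (fun x => Z ⊆ T x)).card ≤ M)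
    (W : Finset U) (hW : ∀ x ∈ X, T x ⊆ W) : X.card ≤ M * (1 + W.card * Y.card) := by
  classical
  rcases Y.eq_empty_or_nonempty with rfl | hne
  · have := hM ∅ (by simp)
    simpa using this
  · obtain ⟨y0, hy0, hmax⟩ := exists_max_image Y (fun y => ∑ e ∈ S y, w e) hne
    have := wcount X T Y S w hw (∑ e ∈ S y0, w e) (fun x hx => hXY x hx y0 hy0) hmax M hM _ W ∅ rfl
      ⟨y0, hy0, empty_subset _⟩
    rw [filter_true_of_mem (fun x hx => ⟨empty_subset _, hW x hx⟩),
      filter_true_of_mem (fun y _ => empty_subset _)] at this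
    refine this.trans (Nat.mul_le_mul_left _ ?_)
    have : ∑ y ∈ Y, (W \ S y).card ≤ Y.card * W.card := by
      rw [← smul_eq_mul, ← sum_const]
      exact sum_le_sum fun y _ => card_le_card sdiff_subset
    nlinarith

lemma two_weights {ι κ U : Type*} [DecidableEq U] (X : Finset ι) (T : ι → Finset U) (Y : Finset κ)
    (S : κ → Finset U) (u : U × U → ℝ) (hu : ∀ e, 0 ≤ u e) (v : U → ℝ) (hv : ∀ e, 0 ≤ v e)
    (hXY : ∀ x ∈ X, ∀ y ∈ Y, ∑ e ∈ S y ×ˢ S y, u e < ∑ e ∈ T x ×ˢ T x, u e ∨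
      ∑ e ∈ S y, v e < ∑ e ∈ T x, v e)
    (hint : ∀ x ∈ X, ∀ x' ∈ X, x ≠ x' → ∃ y ∈ Y, T x ∩ T x' ⊆ S y)
    (W : Finset U) (hW : ∀ x ∈ X, T x ⊆ W) :
    X.card ≤ (1 + W.card * Y.card) * (1 + W.card ^ 2 * Y.card) * (Y.card + 1) := by
  classical
  set L : ι → Finset κ := fun x => Y.filter
    (fun y => ∑ e ∈ S y ×ˢ S y, u e < ∑ e ∈ T x ×ˢ T x, u e) with hL
  have hmap : ∀ x ∈ X, (L x).card ∈ range (Y.card + 1) := fun x _ =>
    mem_range.2 (Nat.lt_succ_of_le (card_filter_le _ _))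
  have := card_le_mul_card_image_of_maps_to hmap
    ((1 + W.card * Y.card) * (1 + W.card ^ 2 * Y.card)) ?_
  · simpa using this
  intro j _
  set Xj := X.filter (fun x => (L x).card = j) with hXj
  rcases Xj.eq_empty_or_nonempty with h0 | ⟨x0, hx0⟩
  · rw [h0]; simp
  have hsame : ∀ x ∈ Xj, L x = L x0 := by
    intro x hx
    have c1 : (L x).card = (L x0).card := by
      rw [(mem_filter.1 hx).2, (mem_filter.1 hx0).2]
    rcases le_total (∑ e ∈ T x ×ˢ T x, u e) (∑ e ∈ T x0 ×ˢ T x0, u e) with h | h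
    · refine eq_of_subset_of_card_le (fun y hy => ?_) c1.ge
      simp only [hL, mem_filter] at hy ⊢
      exact ⟨hy.1, hy.2.trans_le h⟩
    · refine (eq_of_subset_of_card_le (fun y hy => ?_) c1.le).symm
      simp only [hL, mem_filter] at hy ⊢
      exact ⟨hy.1, hy.2.trans_le h⟩
  have main := wcount' Xj (fun x => T x ×ˢ T x) (L x0) (fun y => S y ×ˢ S y) u hu ?_
    (1 + W.card * Y.card) ?_ (W ×ˢ W) ?_
  · refine main.trans (Nat.mul_le_mul_left _ ?_)
    rw [card_product]
    have : (L x0).card ≤ Y.card := card_filter_le _ _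
    have := Nat.mul_le_mul_left (W.card * W.card) this
    nlinarith
  · intro x hx y hy
    rw [← hsame x hx] at hy
    exact (mem_filter.1 hy).2
  · intro Z hZ
    have m2 := wcount' (Xj.filter (fun x => Z ⊆ T x ×ˢ T x)) T (Y \ L x0) S v hv ?_ 1 ?_ W ?_
    · refine m2.trans ?_
      have : (Y \ L x0).card ≤ Y.card := card_le_card sdiff_subset
      have := Nat.mul_le_mul_left W.card this
      omega
    · intro x hx y hy
      have hx' := (mem_filter.1 hx).1
      rw [← hsame x hx'] at hy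
      obtain ⟨hy1, hy2⟩ := mem_sdiff.1 hy
      rcases hXY x (mem_filter.1 hx').1 y hy1 with h | h
      · exact absurd (mem_filter.2 ⟨hy1, h⟩) hy2
      · exact h
    · intro Z' hZ'
      rw [card_le_one]
      intro x hx x' hx'
      by_contra hne
      simp only [hXj, mem_filter] at hx hx'
      obtain ⟨y, hy, hsub⟩ := hint x hx.1.1.1 x' hx'.1.1.1 hne
      by_cases hyL : y ∈ L x0
      · refine hZ y hyL fun p hp => ?_
        have p1 := mem_product.1 (hx.1.2 hp)
        have p2 := mem_product.1 (hx'.1.2 hp)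
        exact mem_product.2 ⟨hsub (mem_inter.2 ⟨p1.1, p2.1⟩), hsub (mem_inter.2 ⟨p1.2, p2.2⟩)⟩
      · exact hZ' y (mem_sdiff.2 ⟨hy, hyL⟩) fun p hp => hsub (mem_inter.2 ⟨hx.2 hp, hx'.2 hp⟩)
    · intro x hx
      exact hW x (mem_filter.1 (mem_filter.1 hx).1).1
  · intro x hx
    have := hW x (mem_filter.1 hx).1
    exact product_subset_product this this

lemma steps (R : Finset ℕ) : ∃ δ : ℕ → ℕ, (∀ s, ∑ r ∈ R.filter (· ≤ s), δ r ≤ s) ∧
    ∀ s ∈ R, ∑ r ∈ R.filter (· ≤ s), δ r = s := by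
  classical
  induction R using Finset.induction_on_max with
  | empty => exact ⟨fun _ => 0, by simp, by simp⟩
  | insert a R ha ih =>
    obtain ⟨δ, h1, h2⟩ := ih
    have haR : a ∉ R := fun h => lt_irrefl _ (ha a h)
    have hsum : ∑ r ∈ R, δ r ≤ a := by
      have := h1 a
      rwa [filter_true_of_mem (fun r hr => (ha r hr).le)] at this
    have key : ∀ s, ∑ r ∈ (insert a R).filter (· ≤ s), Function.update δ a (a - ∑ r ∈ R, δ r) r =
        if a ≤ s then a else ∑ r ∈ R.filter (· ≤ s), δ r := by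
      intro s
      have e : ∀ Q ⊆ R, ∑ r ∈ Q, Function.update δ a (a - ∑ r ∈ R, δ r) r = ∑ r ∈ Q, δ r := by
        intro Q hQ
        refine sum_congr rfl fun r hr => Function.update_of_ne ?_ _ _
        rintro rfl; exact haR (hQ hr)
      rw [filter_insert]
      split_ifs with h
      · rw [sum_insert (fun h' => haR (mem_filter.1 h').1), e _ (filter_subset _ _),
          filter_true_of_mem (fun r hr => (ha r hr).le.trans h), Function.update_self]
        omega
      · exact e _ (filter_subset _ _)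
    refine ⟨Function.update δ a (a - ∑ r ∈ R, δ r), fun s => ?_, fun s hs => ?_⟩
    · rw [key]; split_ifs with h
      · exact h
      · exact h1 s
    · rw [key]
      rcases mem_insert.1 hs with rfl | hs
      · simp
      · rw [if_neg (not_le.2 (ha s hs)), h2 s hs]

lemma socF_mono {n d : ℕ} (A : Matrix (Fin d) (Fin n) ℝ) (b : Fin n → ℝ) (hA : ∀ k i, 0 ≤ A k i)
    (hb : ∀ i, 0 ≤ b i) {x y : Fin n → ℕ} (h : x ≤ y) : socF A b x ≤ socF A b y := by
  unfold socF
  have hc : ∀ i, (x i : ℝ) ≤ y i := fun i => by exact_mod_cast h i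
  refine add_le_add (Real.sqrt_le_sqrt (sum_le_sum fun k _ => ?_))
    (sum_le_sum fun i _ => mul_le_mul_of_nonneg_left (hc i) (hb i))
  exact pow_le_pow_left₀ (sum_nonneg fun i _ => mul_nonneg (hA k i) (Nat.cast_nonneg _))
    (sum_le_sum fun i _ => mul_le_mul_of_nonneg_left (hc i) (hA k i)) 2

theorem result (n d : ℕ) (c : Fin n → ℕ) (A : Matrix (Fin d) (Fin n) ℝ) (b : Fin n → ℝ) (t : ℝ)
    (hA : ∀ k i, 0 ≤ A k i) (hb : ∀ i, 0 ≤ b i) (Y : Finset (Fin n → ℕ))
    (hY : (Y : Set (Fin n → ℕ)) ⊆ MaxFeas c A b t) :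
    (MinND c (Y : Set (Fin n → ℕ)) ∩ MinND c (MaxFeas c A b t)).Finite ∧
    (MinND c (Y : Set (Fin n → ℕ)) ∩ MinND c (MaxFeas c A b t)).ncard ≤
      (1 + n * Y.card ^ 2) * (1 + n ^ 2 * Y.card ^ 3) * (Y.card + 1) := by
  classical
  have hfin : (MinND c (Y : Set (Fin n → ℕ)) ∩ MinND c (MaxFeas c A b t)).Finite :=
    (Set.finite_Iic c).subset fun x hx => hx.1.1.1
  refine ⟨hfin, ?_⟩
  rw [Set.ncard_eq_toFinset_card _ hfin]
  set X := hfin.toFinset with hXdef
  have hX : ∀ x ∈ X, x ∈ MinND c (Y : Set (Fin n → ℕ)) ∧ x ∈ MinND c (MaxFeas c A b t) :=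
    fun x hx => (Set.Finite.mem_toFinset hfin).1 hx
  set R : Fin n → Finset ℕ := fun i => Y.image (fun y => y i + 1) with hR
  choose δ hδ1 hδ2 using fun i => steps (R i)
  set W : Finset (Σ _ : Fin n, ℕ) := univ.sigma R with hW
  set T : (Fin n → ℕ) → Finset (Σ _ : Fin n, ℕ) := fun x => univ.sigma
    (fun i => (R i).filter (· ≤ x i)) with hT
  set fl : (Fin n → ℕ) → Fin n → ℕ := fun x i => ∑ r ∈ (R i).filter (· ≤ x i), δ i r with hfl
  have hlin : ∀ (g : Fin n → ℝ) (x : Fin n → ℕ),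
      ∑ e ∈ T x, g e.1 * (δ e.1 e.2 : ℝ) = ∑ i, g i * (fl x i : ℝ) := by
    intro g x
    rw [hT, sum_sigma]
    refine sum_congr rfl fun i _ => ?_
    simp only [hfl]
    push_cast
    rw [mul_sum]
  set u : (Σ _ : Fin n, ℕ) × (Σ _ : Fin n, ℕ) → ℝ := fun p =>
    ∑ k, (A k p.1.1 * δ p.1.1 p.1.2) * (A k p.2.1 * δ p.2.1 p.2.2) with hu
  set v : (Σ _ : Fin n, ℕ) → ℝ := fun e => b e.1 * δ e.1 e.2 with hv
  have hF : ∀ x, socF A b (fl x) = Real.sqrt (∑ p ∈ T x ×ˢ T x, u p) + ∑ e ∈ T x, v e := by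
    intro x
    unfold socF
    rw [← hlin b x]
    congr 2
    simp only [hu]
    rw [sum_comm]
    refine sum_congr rfl fun k _ => ?_
    rw [← hlin (A k) x, sq, sum_mul_sum, sum_product]
  have hlow : ∀ x ∈ X, ∀ z, z ≤ x → z ≠ x → ∃ y ∈ Y, z ≤ y := by
    intro x hx z hz hne
    by_contra hcon
    push Not at hcon
    have m := (hX x hx).1
    exact hne (le_antisymm hz (m.2 ⟨hz.trans m.1.1, fun a ha => hcon a ha⟩ hz))
  have hflX : ∀ x ∈ X, fl x = x := by
    intro x hx
    funext i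
    rcases Nat.eq_zero_or_pos (x i) with h0 | hpos
    · have := hδ1 i (x i)
      simp only [hfl]; omega
    · apply hδ2
      obtain ⟨y, hy, hle⟩ := hlow x hx (Function.update x i (x i - 1))
        (fun j => by
          by_cases hj : j = i
          · subst hj; simp
          · simp [Function.update_of_ne hj])
        (fun h => by have := congrFun h i; simp at this; omega)
      have hn := (hX x hx).1.1.2 y hy
      refine mem_image.2 ⟨y, hy, ?_⟩
      have h1 := hle i
      simp only [Function.update_self] at h1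
      by_contra hcon
      refine hn fun j => ?_
      by_cases hj : j = i
      · subst hj
        have hcon' : y j + 1 ≠ x j := hcon
        show x j ≤ y j
        omega
      · have := hle j
        rwa [Function.update_of_ne hj] at this
  have hinf : ∀ x ∈ X, t < socF A b x := by
    intro x hx
    by_contra hcon
    push Not at hcon
    have m := (hX x hx).2
    have hf : {z : Fin n → ℕ | z ≤ c ∧ socF A b z ≤ t}.Finite :=
      (Set.finite_Iic c).subset fun z hz => hz.1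
    obtain ⟨a, ha, hmax⟩ := hf.exists_le_maximal (a := x) ⟨m.1.1, hcon⟩
    exact m.1.2 a hmax ha
  have hfe : ∀ y ∈ Y, socF A b (fl y) ≤ t := fun y hy =>
    (socF_mono A b hA hb (fun i => hδ1 i (y i))).trans (hY hy).1.2
  have main := two_weights X T Y T u ?_ v ?_ ?_ ?_ W ?_
  · have hWc : W.card ≤ n * Y.card := by
      rw [hW, card_sigma]
      calc ∑ i, (R i).card ≤ ∑ _i : Fin n, Y.card := sum_le_sum fun i _ => card_image_le
        _ = n * Y.card := by simp
    refine main.trans (Nat.mul_le_mul_right _ (Nat.mul_le_mul ?_ ?_))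
    · have := Nat.mul_le_mul_right Y.card hWc
      nlinarith
    · have := Nat.mul_le_mul_right Y.card (Nat.pow_le_pow_left hWc 2)
      calc _ ≤ 1 + (n * Y.card) ^ 2 * Y.card := by omega
        _ = _ := by ring
  · intro p
    exact sum_nonneg fun k _ => mul_nonneg (mul_nonneg (hA _ _) (Nat.cast_nonneg _))
      (mul_nonneg (hA _ _) (Nat.cast_nonneg _))
  · intro e
    exact mul_nonneg (hb _) (Nat.cast_nonneg _)
  · intro x hx y hy
    by_contra hcon
    push Not at hcon
    have h1 := hinf x hx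
    have h2 := hfe y hy
    rw [← hflX x hx, hF] at h1
    rw [hF] at h2
    have := Real.sqrt_le_sqrt hcon.1
    linarith [hcon.2]
  · intro x hx x' hx' hne
    have hz : ∃ y ∈ Y, x ⊓ x' ≤ y := by
      by_cases h : x ⊓ x' = x
      · have hle : x ≤ x' := inf_eq_left.1 h
        rw [h]
        exact hlow x' hx' x hle hne
      · exact hlow x hx _ inf_le_left h
    obtain ⟨y, hy, hle⟩ := hz
    refine ⟨y, hy, fun e he => ?_⟩
    simp only [hT, mem_inter, mem_sigma, mem_univ, true_and, mem_filter] at he ⊢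
    refine ⟨he.1.1, ?_⟩
    have := hle e.1
    simp only [Pi.inf_apply] at this
    exact (le_inf he.1.2 he.2.2).trans this
  · intro x _ e he
    simp only [hT, hW, mem_sigma, mem_univ, true_and, mem_filter] at he ⊢
    exact he.1

end Pool.Agent.Results.MP_91ff8f_lc.PolyDual
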